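import Mathlib

/-!
Lower bounds for symbol lengths in Milnor K-theory: linear algebra of determinants of valuations.
-/

set_option autoImplicit false

namespace Pool.Agent.Helper57.SymLow

open Finset

/-! ### The functional attached to a tuple of coordinates -/

section

variable {M : Type*} [AddCommGroup M] {ι : Type*} (p n : ℕ) (w : ι → M →+ ℤ)

/-- the vector of coordinates of an element, reduced modulo p -/
def lin (K : Fin n → ι) : M →ₗ[ℤ] (Fin n → ZMod p) :=
  AddMonoidHom.toIntLinearMap
    { toFun := fun a j => ((w (K j) a : ℤ) : ZMod p)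
      map_zero' := by funext j; simp
      map_add' := fun a b => by funext j; simp }

theorem lin_apply (K : Fin n → ι) (a : M) (j : Fin n) :
    lin p n w K a j = ((w (K j) a : ℤ) : ZMod p) := rfl

/-- determinant of the coordinates -/
noncomputable def multi (K : Fin n → ι) : MultilinearMap ℤ (fun _ : Fin n => M) (ZMod p) :=
  ((Matrix.detRowAlternating (n := Fin n) (R := ZMod p)).toMultilinearMap.restrictScalars
    ℤ).compLinearMap (fun _ => lin p n w K)

/-- the induced functional on the tensor power -/
noncomputable def Phi (K : Fin n → ι) :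
    PiTensorProduct ℤ (fun _ : Fin n => M) →ₗ[ℤ] ZMod p :=
  PiTensorProduct.lift (multi p n w K)

theorem Phi_tprod (K : Fin n → ι) (a : Fin n → M) :
    Phi p n w K (PiTensorProduct.tprod ℤ a) =
      (Matrix.of fun i j => ((w (K j) (a i) : ℤ) : ZMod p)).det := by
  rw [Phi, PiTensorProduct.lift.tprod]
  rfl

/-- the same determinant seen as an alternating function of the columns -/
theorem Phi_tprod' (K : Fin n → ι) (a : Fin n → M) :
    Phi p n w K (PiTensorProduct.tprod ℤ a) =
      Matrix.detRowAlternating (R := ZMod p)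
        (fun j i => ((w (K j) (a i) : ℤ) : ZMod p) : Fin n → Fin n → ZMod p) := by
  rw [Phi_tprod, ← Matrix.det_transpose]
  rfl

end

/-- a matrix with two rows which are supported on a common column is singular -/
theorem det_two_rows {F : Type*} [Field F] {n : ℕ} (A : Matrix (Fin n) (Fin n) F) (i j c : Fin n)
    (hij : i ≠ j) (hi : ∀ s, s ≠ c → A i s = 0) (hj : ∀ s, s ≠ c → A j s = 0) : A.det = 0 := by
  by_cases h0 : A i c = 0
  · apply Matrix.det_eq_zero_of_row_eq_zero i
    intro s
    by_cases hs : s = c
    · rw [hs, h0]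
    · exact hi s hs
  · rw [← Matrix.exists_vecMul_eq_zero_iff]
    refine ⟨fun s => if s = i then A j c else if s = j then -(A i c) else 0, ?_, ?_⟩
    · intro h
      have := congrFun h j
      simp only [Pi.zero_apply, if_neg hij.symm, if_true] at this
      exact h0 (neg_eq_zero.mp this)
    · funext s
      rw [Matrix.vecMul, dotProduct, Pi.zero_apply]
      rw [← Finset.sum_subset (Finset.subset_univ {i, j})]
      · rw [Finset.sum_pair hij]
        simp only [if_true, if_neg hij.symm]
        by_cases hs : s = c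
        · rw [hs]; ring
        · rw [hi s hs, hj s hs]; ring
      · intro s' _ hs'
        simp only [Finset.mem_insert, Finset.mem_singleton, not_or] at hs'
        simp [hs'.1, hs'.2]

section main

variable {M : Type*} [AddCommGroup M] {κ : Type*} (p n r : ℕ)
  (w : Fin r ⊕ κ → M →+ ℤ) (St : M → M → Prop)

/-- the relations of the mod p Milnor K-group of degree n + 1 -/
def Rel : Set (PiTensorProduct ℤ (fun _ : Fin (n + 1) => M)) :=
  {t | ∃ b : Fin (n + 1) → M, (∃ i j : Fin (n + 1), i.val + 1 = j.val ∧ St (b i) (b j)) ∧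
      t = PiTensorProduct.tprod ℤ b} ∪
    {t | ∃ y, t = (p : ℤ) • y}

/-- what is needed of the coordinates -/
def Good : Prop := ∀ u v : M, St u v → (∀ c, w c u = 0) ∨ (∀ c, w c v = 0) ∨
  (∀ c, w c u = w c v) ∨ (∀ l, w (Sum.inl l) u = 0 ∧ w (Sum.inl l) v = 0)

variable {p n r w St}

theorem Phi_rel [Fact p.Prime] (hG : Good r w St) (c0 : Fin r ⊕ κ) (J : Fin n → Fin r)
    {y : PiTensorProduct ℤ (fun _ : Fin (n + 1) => M)}
    (hy : y ∈ Submodule.span ℤ (Rel p n St)) :
    Phi p (n + 1) w (Fin.cons c0 (fun s => Sum.inl (J s))) y = 0 := by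
  have hle : Submodule.span ℤ (Rel p n St) ≤
      LinearMap.ker (Phi p (n + 1) w (Fin.cons c0 (fun s => Sum.inl (J s)))) := by
    rw [Submodule.span_le]
    rintro t (⟨b, ⟨i, j, hij, hst⟩, rfl⟩ | ⟨y, rfl⟩)
    · rw [SetLike.mem_coe, LinearMap.mem_ker, Phi_tprod]
      have hne : i ≠ j := by
        intro h
        rw [h] at hij
        omega
      rcases hG _ _ hst with h | h | h | h
      · exact Matrix.det_eq_zero_of_row_eq_zero i fun s => by simp [h]
      · exact Matrix.det_eq_zero_of_row_eq_zero j fun s => by simp [h]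
      · exact Matrix.det_zero_of_row_eq hne (by funext s; simp [h])
      · apply det_two_rows _ i j 0 hne
        · intro s hs
          obtain ⟨s', rfl⟩ := Fin.exists_succ_eq.mpr hs
          simp [(h _).1]
        · intro s hs
          obtain ⟨s', rfl⟩ := Fin.exists_succ_eq.mpr hs
          simp [(h _).2]
    · rw [SetLike.mem_coe, LinearMap.mem_ker, map_smul]
      simp
  exact hle hy

/-- index set: the subsets of size n of the variables -/
abbrev Ind (n r : ℕ) : Type := {s : Finset (Fin r) // s.card = n}

/-- the increasing enumeration of a subset of size n -/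
noncomputable def J (s : Ind n r) : Fin n → Fin r := fun i => s.1.orderEmbOfFin s.2 i

theorem J_inj (s : Ind n r) : Function.Injective (J s) :=
  (s.1.orderEmbOfFin s.2).injective

theorem J_mem (s : Ind n r) (i : Fin n) : J s i ∈ s.1 := Finset.orderEmbOfFin_mem _ _ _

theorem J_surj (s : Ind n r) {l : Fin r} (hl : l ∈ s.1) : ∃ i, J s i = l := by
  have h := Finset.range_orderEmbOfFin s.1 s.2
  have h2 : l ∈ Set.range (s.1.orderEmbOfFin s.2) := by rw [h]; exact hl
  exact h2

theorem detA (s s' : Ind n r) :
    (Matrix.of fun i j => if J s' j = J s i then (1 : ZMod p) else 0).det =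
      if s = s' then 1 else 0 := by
  by_cases h : s = s'
  · subst h
    rw [if_pos rfl]
    have : (Matrix.of fun i j => if J s j = J s i then (1 : ZMod p) else 0) = 1 := by
      ext i j
      rw [Matrix.of_apply, Matrix.one_apply]
      by_cases hij : i = j
      · rw [hij, if_pos rfl, if_pos rfl]
      · rw [if_neg hij, if_neg]
        intro h
        exact hij (J_inj s h).symm
    rw [this, Matrix.det_one]
  · rw [if_neg h]
    have hne : ¬ s.1 ⊆ s'.1 := by
      intro hsub
      exact h (Subtype.ext (Finset.eq_of_subset_of_card_le hsub (by rw [s.2, s'.2])))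
    rw [Finset.not_subset] at hne
    obtain ⟨l, hl, hl'⟩ := hne
    obtain ⟨i, hi⟩ := J_surj s hl
    apply Matrix.det_eq_zero_of_row_eq_zero i
    intro j
    rw [Matrix.of_apply, if_neg]
    intro h
    rw [hi] at h
    rw [← h] at hl'
    exact hl' (J_mem s' j)

theorem detB (s : Ind n r) (q : Fin n) (l : Fin r) :
    (Matrix.of fun i j => if Function.update (J s) q l j = J s i then (1 : ZMod p) else 0).det =
      if l = J s q then 1 else 0 := by
  by_cases h : l = J s q
  · subst h
    rw [Function.update_eq_self, detA]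
    simp
  · rw [if_neg h]
    by_cases h2 : ∃ q', J s q' = l
    · obtain ⟨q', rfl⟩ := h2
      have hqq : q ≠ q' := fun h3 => h (by rw [h3])
      apply Matrix.det_zero_of_column_eq hqq
      intro i
      rw [Matrix.of_apply, Matrix.of_apply, Function.update_self,
        Function.update_of_ne hqq.symm]
    · apply Matrix.det_eq_zero_of_column_eq_zero q
      intro i
      rw [Matrix.of_apply, Function.update_self, if_neg]
      intro h3
      exact h2 ⟨i, h3.symm⟩

variable (w) in
/-- the test elements exist -/
structure Test (x : Fin r → M) (t : κ → M) [DecidableEq κ] : Prop where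
  xx : ∀ l l', w (Sum.inl l) (x l') = if l = l' then 1 else 0
  tx : ∀ l c, w (Sum.inl l) (t c) = 0
  tt : ∀ c c', w (Sum.inr c) (t c') = if c = c' then 1 else 0

variable [DecidableEq κ] {x : Fin r → M} {t : κ → M}

theorem Phi_test (hT : Test w x t) (c0 : Fin r ⊕ κ) (J' : Fin n → Fin r) (c : κ) (s : Ind n r) :
    Phi p (n + 1) w (Fin.cons c0 (fun i => Sum.inl (J' i)))
      (PiTensorProduct.tprod ℤ (Fin.cons (t c) (fun i => x (J s i)) : Fin (n + 1) → M)) =
      ((w c0 (t c) : ℤ) : ZMod p) *
        (Matrix.of fun i j => if J' j = J s i then (1 : ZMod p) else 0).det := by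
  rw [Phi_tprod, Matrix.det_succ_row_zero, Fin.sum_univ_succ]
  rw [Finset.sum_eq_zero]
  · simp only [Fin.val_zero, pow_zero, one_mul, Matrix.of_apply, Fin.cons_zero, add_zero,
      Fin.succAbove_zero]
    congr 2
    ext i j
    simp [hT.xx]
  · intro j _
    simp [hT.tx]

variable (p n w) in
/-- columns of coordinates -/
def col (a : Fin (n + 1) → M) (c : Fin r ⊕ κ) : Fin (n + 1) → ZMod p :=
  fun i => ((w c (a i) : ℤ) : ZMod p)

theorem Phi_col (K : Fin (n + 1) → Fin r ⊕ κ) (a : Fin (n + 1) → M) :
    Phi p (n + 1) w K (PiTensorProduct.tprod ℤ a) =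
      Matrix.detRowAlternating (R := ZMod p) (fun q => col p n w a (K q)) := by
  rw [Phi_tprod']
  rfl

/-- a linear dependence between columns -/
theorem dep {ρ : Type*} [Fintype ρ] {e : Type*} [Fintype e] (a : ρ → Fin (n + 1) → M)
    (β : e → ZMod p) (d : e → Fin r ⊕ κ) (h : ∀ j, ∑ m, β m • col p n w (a j) (d m) = 0)
    (K : Fin (n + 1) → Fin r ⊕ κ) (q : Fin (n + 1)) :
    ∑ m, β m * Phi p (n + 1) w (Function.update K q (d m))
      (∑ j, PiTensorProduct.tprod ℤ (a j)) = 0 := by
  have h1 : ∀ m, Phi p (n + 1) w (Function.update K q (d m))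
      (∑ j, PiTensorProduct.tprod ℤ (a j)) =
      ∑ j, (Matrix.detRowAlternating (n := Fin (n + 1)) (R := ZMod p)).toMultilinearMap.toLinearMap
        (fun s => col p n w (a j) (K s)) q (col p n w (a j) (d m)) := by
    intro m
    rw [map_sum]
    refine Finset.sum_congr rfl fun j _ => ?_
    rw [Phi_col, MultilinearMap.toLinearMap_apply]
    change _ = Matrix.detRowAlternating _
    congr 1
    funext s
    by_cases hs : s = q
    · rw [hs, Function.update_self, Function.update_self]
    · rw [Function.update_of_ne hs, Function.update_of_ne hs]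
  simp_rw [h1, Finset.mul_sum]
  rw [Finset.sum_comm]
  refine Finset.sum_eq_zero fun j _ => ?_
  have h2 := congrArg ((Matrix.detRowAlternating (n := Fin (n + 1))
    (R := ZMod p)).toMultilinearMap.toLinearMap (fun s => col p n w (a j) (K s)) q) (h j)
  rw [map_sum, map_zero] at h2
  rw [← h2]
  refine Finset.sum_congr rfl fun m _ => ?_
  rw [map_smul, smul_eq_mul]

variable (x t) in
/-- the test class -/
noncomputable def testClass (c : Ind n r → κ) :
    PiTensorProduct ℤ (fun _ : Fin (n + 1) => M) :=
  ∑ s : Ind n r, PiTensorProduct.tprod ℤ (Fin.cons (t (c s)) (fun i => x (J s i)))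

theorem Phi_testClass_inl (hT : Test w x t) (c : Ind n r → κ) (l : Fin r) (J' : Fin n → Fin r) :
    Phi p (n + 1) w (Fin.cons (Sum.inl l) (fun i => Sum.inl (J' i))) (testClass x t c) = 0 := by
  rw [testClass, map_sum]
  refine Finset.sum_eq_zero fun s _ => ?_
  rw [Phi_test hT, hT.tx]
  simp

theorem Phi_testClass_inr (hT : Test w x t) (c : Ind n r → κ) (hc : Function.Injective c)
    (s0 : Ind n r) (J' : Fin n → Fin r) :
    Phi p (n + 1) w (Fin.cons (Sum.inr (c s0)) (fun i => Sum.inl (J' i))) (testClass x t c) =
      (Matrix.of fun i j => if J' j = J s0 i then (1 : ZMod p) else 0).det := by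
  rw [testClass, map_sum, Finset.sum_eq_single s0]
  · rw [Phi_test hT, hT.tt]
    simp
  · intro s _ hs
    rw [Phi_test hT, hT.tt, if_neg (fun h => hs (hc h).symm)]
    simp
  · intro h
    exact absurd (Finset.mem_univ _) h

/-- **Main inequality.** -/
theorem main [Fact p.Prime] (hn : 1 ≤ n) (hnr : n ≤ r) (hG : Good r w St) (hT : Test w x t)
    (c : Ind n r → κ) (hc : Function.Injective c) {k : ℕ} (a : Fin k → Fin (n + 1) → M)
    (h : testClass x t c - ∑ j, PiTensorProduct.tprod ℤ (a j) ∈ Submodule.span ℤ (Rel p n St)) :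
    r.choose n + r ≤ (n + 1) * k := by
  -- functionals agree
  have hag : ∀ (c0 : Fin r ⊕ κ) (J' : Fin n → Fin r),
      Phi p (n + 1) w (Fin.cons c0 (fun i => Sum.inl (J' i)))
        (∑ j, PiTensorProduct.tprod ℤ (a j)) =
      Phi p (n + 1) w (Fin.cons c0 (fun i => Sum.inl (J' i))) (testClass x t c) := by
    intro c0 J'
    have h1 := Phi_rel hG c0 J' h
    rw [map_sub, sub_eq_zero] at h1
    exact h1.symm
  -- the vectors
  let u : Ind n r ⊕ Fin r → (Fin k × Fin (n + 1) → ZMod p) :=
    Sum.elim (fun s q => col p n w (a q.1) (Sum.inr (c s)) q.2)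
      (fun l q => col p n w (a q.1) (Sum.inl l) q.2)
  have hli : LinearIndependent (ZMod p) u := by
    rw [Fintype.linearIndependent_iff]
    intro g hg
    -- the dependence, read on the columns
    let d : Ind n r ⊕ Fin r → Fin r ⊕ κ := Sum.elim (fun s => Sum.inr (c s)) (fun l => Sum.inl l)
    have hcol : ∀ j, ∑ m, g m • col p n w (a j) (d m) = 0 := by
      intro j
      funext i
      have h1 := congrFun hg (j, i)
      simp only [Finset.sum_apply, Pi.smul_apply, Pi.zero_apply] at h1 ⊢
      rw [← h1]
      refine Finset.sum_congr rfl fun m _ => ?_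
      rcases m with s | l <;> rfl
    have hg1 : ∀ s, g (Sum.inl s) = 0 := by
      intro s
      have h1 := dep a g d hcol (Fin.cons (Sum.inr (c s)) (fun i => Sum.inl (J s i))) 0
      simp_rw [Fin.update_cons_zero] at h1
      rw [Fintype.sum_sum_type] at h1
      simp only [d, Sum.elim_inl, Sum.elim_inr] at h1
      simp_rw [hag, Phi_testClass_inl hT, Phi_testClass_inr hT c hc, mul_zero,
        Finset.sum_const_zero, add_zero, detA] at h1
      simpa using h1
    -- the remaining dependence
    have hcol2 : ∀ j, ∑ l, g (Sum.inr l) • col p n w (a j) (Sum.inl l) = 0 := by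
      intro j
      have h1 := hcol j
      rw [Fintype.sum_sum_type] at h1
      simpa [hg1, d] using h1
    have hg2 : ∀ l, g (Sum.inr l) = 0 := by
      intro l
      obtain ⟨s, hls, hs⟩ : ∃ s : Finset (Fin r), l ∈ s ∧ s.card = n := by
        obtain ⟨s, h1, h2, h3⟩ := Finset.exists_subsuperset_card_eq
          (Finset.subset_univ ({l} : Finset (Fin r))) (by simpa using hn) (by simpa using hnr)
        exact ⟨s, h1 (Finset.mem_singleton_self l), h3⟩
      obtain ⟨q, hq⟩ := J_surj (⟨s, hs⟩ : Ind n r) hls
      have h1 := dep a (fun l => g (Sum.inr l)) (fun l => Sum.inl l) hcol2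
        (Fin.cons (Sum.inr (c ⟨s, hs⟩)) (fun i => Sum.inl (J ⟨s, hs⟩ i))) q.succ
      have h2 : ∀ l' : Fin r, Function.update (Fin.cons (Sum.inr (c ⟨s, hs⟩))
          (fun i => Sum.inl (J ⟨s, hs⟩ i)) : Fin (n + 1) → Fin r ⊕ κ) q.succ (Sum.inl l') =
          Fin.cons (Sum.inr (c ⟨s, hs⟩))
            (fun i => Sum.inl (Function.update (J ⟨s, hs⟩) q l' i)) := by
        intro l'
        rw [← Fin.cons_update]
        congr 1
        funext i
        by_cases hi : i = q
        · rw [hi, Function.update_self, Function.update_self]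
        · rw [Function.update_of_ne hi, Function.update_of_ne hi]
      simp_rw [h2, hag, Phi_testClass_inr hT c hc, detB, hq] at h1
      simpa using h1
    intro m
    rcases m with s | l
    · exact hg1 s
    · exact hg2 l
  have hcard := hli.fintype_card_le_finrank
  rw [Module.finrank_pi, Fintype.card_sum, Fintype.card_prod, Fintype.card_fin, Fintype.card_fin,
    Fintype.card_fin, Fintype.card_finset_len, Fintype.card_fin, mul_comm] at hcard
  exact hcard

end main

end Pool.Agent.Helper57.SymLow
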