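import Mathlib

/-!
The composite valuations of a rational function field: leading exponents in all variables but one and orders
of the leading coefficient, which is a polynomial in the last variable.
-/

set_option autoImplicit false

namespace Pool.Agent.Helper57.SymVal

open MvPolynomial

/-- extension of an additive invariant of the nonzero elements of a domain to the units of the
fraction field -/
theorem exists_hom (P : Type*) [CommRing P] [IsDomain P] {A : Type*} [AddCommGroup A] (φ : P → A)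
    (hφ : ∀ f g : P, f ≠ 0 → g ≠ 0 → φ (f * g) = φ f + φ g) :
    ∃ w : Additive (FractionRing P)ˣ →+ A, ∀ (u : (FractionRing P)ˣ) (f g : P), f ≠ 0 → g ≠ 0 →
      (u : FractionRing P) * algebraMap P (FractionRing P) g = algebraMap P (FractionRing P) f →
      w (Additive.ofMul u) = φ f - φ g := by
  have hex : ∀ u : (FractionRing P)ˣ, ∃ q : P × P, q.1 ≠ 0 ∧ q.2 ≠ 0 ∧
      (u : FractionRing P) * algebraMap P (FractionRing P) q.2 =
        algebraMap P (FractionRing P) q.1 := by
    intro u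
    obtain ⟨⟨a, b⟩, h⟩ := IsLocalization.surj (nonZeroDivisors P) (u : FractionRing P)
    have hb : (b : P) ≠ 0 := nonZeroDivisors.ne_zero b.2
    refine ⟨(a, b), ?_, hb, h⟩
    rintro rfl
    simp only [map_zero, mul_eq_zero, Units.ne_zero, false_or] at h
    exact hb ((IsFractionRing.to_map_eq_zero_iff (K := FractionRing P)).mp h)
  choose q hq1 hq2 hq3 using hex
  have key : ∀ (u : (FractionRing P)ˣ) (f g : P), f ≠ 0 → g ≠ 0 →
      (u : FractionRing P) * algebraMap P (FractionRing P) g = algebraMap P (FractionRing P) f →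
      φ (q u).1 - φ (q u).2 = φ f - φ g := by
    intro u f g hf hg h
    have e : (q u).1 * g = f * (q u).2 := by
      apply IsFractionRing.injective P (FractionRing P)
      rw [map_mul, map_mul, ← hq3 u, ← h]
      ring
    have h2 := congrArg φ e
    rw [hφ _ _ (hq1 u) hg, hφ _ _ hf (hq2 u)] at h2
    exact sub_eq_sub_iff_add_eq_add.mpr h2
  refine ⟨AddMonoidHom.mk' (fun u => φ (q u.toMul).1 - φ (q u.toMul).2) ?_,
    fun u f g hf hg h => key u f g hf hg h⟩
  intro a b
  have h1 := key (a.toMul * b.toMul) ((q a.toMul).1 * (q b.toMul).1)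
    ((q a.toMul).2 * (q b.toMul).2) (mul_ne_zero (hq1 _) (hq1 _)) (mul_ne_zero (hq2 _) (hq2 _)) (by
      rw [map_mul, map_mul, ← hq3, ← hq3, Units.val_mul]
      ring)
  rw [hφ _ _ (hq1 _) (hq1 _), hφ _ _ (hq2 _) (hq2 _)] at h1
  change φ (q (a.toMul * b.toMul)).1 - φ (q (a.toMul * b.toMul)).2 = _
  rw [h1]
  abel

/-- variable number 0 becomes the coefficient variable -/
noncomputable def eqv (r : ℕ) :
    MvPolynomial (Fin (r + 1)) ℂ ≃ₐ[ℂ] MvPolynomial (Fin r) (Polynomial ℂ) :=
  (renameEquiv ℂ (_root_.finSuccEquiv r)).trans (optionEquivRight ℂ (Fin r))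

theorem eqv_X_zero (r : ℕ) : eqv r (X 0) = C Polynomial.X := by
  rw [eqv, AlgEquiv.trans_apply, renameEquiv_apply, rename_X, finSuccEquiv_zero,
    optionEquivRight_X_none]

theorem eqv_X_succ (r : ℕ) (l : Fin r) : eqv r (X l.succ) = X l := by
  rw [eqv, AlgEquiv.trans_apply, renameEquiv_apply, rename_X, finSuccEquiv_succ,
    optionEquivRight_X_some]

theorem eqv_C (r : ℕ) (c : ℂ) : eqv r (C c) = C (Polynomial.C c) := by
  rw [eqv, AlgEquiv.trans_apply, renameEquiv_apply, rename_C, optionEquivRight_C]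

/-- leading exponents, and orders of the leading coefficient -/
noncomputable def phi (r : ℕ) (f : MvPolynomial (Fin (r + 1)) ℂ) : Fin r ⊕ ℂ → ℤ :=
  Sum.elim (fun l => ((MonomialOrder.lex.degree (eqv r f) l : ℕ) : ℤ))
    (fun c => ((MonomialOrder.lex.leadingCoeff (eqv r f)).rootMultiplicity c : ℤ))

theorem phi_inl (r : ℕ) (f : MvPolynomial (Fin (r + 1)) ℂ) (l : Fin r) :
    phi r f (Sum.inl l) = ((MonomialOrder.lex.degree (eqv r f) l : ℕ) : ℤ) := rfl

theorem phi_inr (r : ℕ) (f : MvPolynomial (Fin (r + 1)) ℂ) (c : ℂ) :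
    phi r f (Sum.inr c) = ((MonomialOrder.lex.leadingCoeff (eqv r f)).rootMultiplicity c : ℤ) := rfl

theorem phi_mul (r : ℕ) (f g : MvPolynomial (Fin (r + 1)) ℂ) (hf : f ≠ 0) (hg : g ≠ 0) :
    phi r (f * g) = phi r f + phi r g := by
  have hf' : eqv r f ≠ 0 := (map_ne_zero_iff _ (eqv r).injective).mpr hf
  have hg' : eqv r g ≠ 0 := (map_ne_zero_iff _ (eqv r).injective).mpr hg
  funext c
  rcases c with l | c
  · rw [Pi.add_apply, phi_inl, phi_inl, phi_inl, map_mul,
      MonomialOrder.degree_mul hf' hg', Finsupp.add_apply]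
    push_cast
    rfl
  · rw [Pi.add_apply, phi_inr, phi_inr, phi_inr, map_mul, MonomialOrder.leadingCoeff_mul,
      Polynomial.rootMultiplicity_mul]
    · push_cast
      rfl
    · exact mul_ne_zero (MonomialOrder.leadingCoeff_ne_zero_iff.mpr hf')
        (MonomialOrder.leadingCoeff_ne_zero_iff.mpr hg')

/-- the Steinberg relation for polynomials -/
theorem phi_stein (r : ℕ) (f g h : MvPolynomial (Fin (r + 1)) ℂ) (hf : f ≠ 0) (hg : g ≠ 0)
    (e : f + g = h) :
    (∀ c, phi r f c = phi r h c) ∨ (∀ c, phi r g c = phi r h c) ∨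
      (∀ c, phi r f c = phi r g c) ∨
      (∀ l, phi r f (Sum.inl l) = phi r h (Sum.inl l) ∧ phi r g (Sum.inl l) = phi r h (Sum.inl l)) := by
  subst e
  have hf' : eqv r f ≠ 0 := (map_ne_zero_iff _ (eqv r).injective).mpr hf
  have hg' : eqv r g ≠ 0 := (map_ne_zero_iff _ (eqv r).injective).mpr hg
  set mo : MonomialOrder (Fin r) := MonomialOrder.lex with hmo
  rcases lt_trichotomy (mo.toSyn (mo.degree (eqv r f))) (mo.toSyn (mo.degree (eqv r g))) with
    hlt | heq | hlt
  · right; left
    intro c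
    have h1 : mo.degree (eqv r (f + g)) = mo.degree (eqv r g) := by
      rw [map_add, add_comm]
      exact mo.degree_add_of_lt hlt
    have h2 : mo.leadingCoeff (eqv r (f + g)) = mo.leadingCoeff (eqv r g) := by
      rw [map_add, add_comm]
      exact mo.leadingCoeff_add_of_lt hlt
    rcases c with l | c
    · rw [phi_inl, phi_inl, ← hmo, h1]
    · rw [phi_inr, phi_inr, ← hmo, h2]
  · have hd : mo.degree (eqv r f) = mo.degree (eqv r g) := mo.toSyn.injective heq
    right; right
    by_cases hs : mo.leadingCoeff (eqv r f) + mo.leadingCoeff (eqv r g) = 0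
    · left
      intro c
      rcases c with l | c
      · rw [phi_inl, phi_inl, ← hmo, hd]
      · rw [phi_inr, phi_inr, ← hmo, eq_neg_of_add_eq_zero_left hs]
        congr 1
        rw [← neg_one_mul, ← Polynomial.C_1, ← Polynomial.C_neg,
          Polynomial.rootMultiplicity_mul (by
            apply mul_ne_zero
            · rw [Ne, Polynomial.C_eq_zero]; norm_num
            · exact MonomialOrder.leadingCoeff_ne_zero_iff.mpr hg'),
          Polynomial.rootMultiplicity_C, zero_add]
    · right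
      intro l
      have h1 : mo.degree (eqv r (f + g)) = mo.degree (eqv r f) := by
        rw [map_add]
        apply mo.toSyn.injective
        apply le_antisymm
        · refine mo.degree_add_le.trans ?_
          rw [← heq, sup_idem]
        · apply mo.le_degree
          rw [mem_support_iff, coeff_add]
          rw [MonomialOrder.leadingCoeff, MonomialOrder.leadingCoeff, ← hd] at hs
          exact hs
      rw [phi_inl, phi_inl, phi_inl, ← hmo, h1, hd]
      exact ⟨rfl, rfl⟩
  · left
    intro c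
    have h1 : mo.degree (eqv r (f + g)) = mo.degree (eqv r f) := by
      rw [map_add]
      exact mo.degree_add_of_lt hlt
    have h2 : mo.leadingCoeff (eqv r (f + g)) = mo.leadingCoeff (eqv r f) := by
      rw [map_add]
      exact mo.leadingCoeff_add_of_lt hlt
    rcases c with l | c
    · rw [phi_inl, phi_inl, ← hmo, h1]
    · rw [phi_inr, phi_inr, ← hmo, h2]

theorem phi_one (r : ℕ) (c : Fin r ⊕ ℂ) : phi r 1 c = 0 := by
  rcases c with l | c
  · rw [phi_inl, map_one, MonomialOrder.degree_one]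
    simp
  · rw [phi_inr, map_one, MonomialOrder.leadingCoeff_one, ← Polynomial.C_1,
      Polynomial.rootMultiplicity_C]
    simp

theorem phi_X (r : ℕ) (l' : Fin r) (l : Fin r) :
    phi r (X l'.succ) (Sum.inl l) = if l = l' then 1 else 0 := by
  rw [phi_inl, eqv_X_succ, MonomialOrder.degree_X, Finsupp.single_apply]
  by_cases h : l = l'
  · rw [if_pos h, if_pos h.symm]
    simp
  · rw [if_neg h, if_neg (Ne.symm h)]
    simp

theorem phi_t_inl (r : ℕ) (c : ℂ) (l : Fin r) : phi r (X 0 - C c) (Sum.inl l) = 0 := by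
  rw [phi_inl, map_sub, eqv_X_zero, eqv_C, ← C_sub, MonomialOrder.degree_C]
  simp

theorem phi_t_inr (r : ℕ) (c c' : ℂ) :
    phi r (X 0 - C c) (Sum.inr c') = if c' = c then 1 else 0 := by
  classical
  rw [phi_inr, map_sub, eqv_X_zero, eqv_C, ← C_sub, MonomialOrder.leadingCoeff_C,
    Polynomial.rootMultiplicity_X_sub_C]
  by_cases h : c' = c
  · rw [if_pos h, if_pos h]; simp
  · rw [if_neg h, if_neg h]; simp

/-- a nonzero polynomial as a unit of the fraction field -/
noncomputable def toUnit (r : ℕ) (f : MvPolynomial (Fin (r + 1)) ℂ) (hf : f ≠ 0) :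
    (FractionRing (MvPolynomial (Fin (r + 1)) ℂ))ˣ :=
  Units.mk0 (algebraMap _ (FractionRing (MvPolynomial (Fin (r + 1)) ℂ)) f)
    (fun h => hf ((IsFractionRing.to_map_eq_zero_iff
      (K := FractionRing (MvPolynomial (Fin (r + 1)) ℂ))).mp h))

theorem t_ne (r : ℕ) (c : ℂ) : (X 0 - C c : MvPolynomial (Fin (r + 1)) ℂ) ≠ 0 := by
  intro h
  have h2 := phi_t_inr r c c
  rw [h, phi_inr, map_zero, MonomialOrder.leadingCoeff_zero, if_pos rfl,
    Polynomial.rootMultiplicity_zero] at h2
  simp at h2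

/-- **The coordinates.** -/
theorem exists_coord (r : ℕ) :
    ∃ w : Fin r ⊕ ℂ → (Additive (FractionRing (MvPolynomial (Fin (r + 1)) ℂ))ˣ →+ ℤ),
      (∀ u v : (FractionRing (MvPolynomial (Fin (r + 1)) ℂ))ˣ,
        (u : FractionRing (MvPolynomial (Fin (r + 1)) ℂ)) + v = 1 →
          (∀ c, w c (Additive.ofMul u) = 0) ∨ (∀ c, w c (Additive.ofMul v) = 0) ∨
          (∀ c, w c (Additive.ofMul u) = w c (Additive.ofMul v)) ∨
          (∀ l, w (Sum.inl l) (Additive.ofMul u) = 0 ∧ w (Sum.inl l) (Additive.ofMul v) = 0)) ∧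
      ∃ (x : Fin r → (FractionRing (MvPolynomial (Fin (r + 1)) ℂ))ˣ)
        (t : ℂ → (FractionRing (MvPolynomial (Fin (r + 1)) ℂ))ˣ),
        (∀ l l', w (Sum.inl l) (Additive.ofMul (x l')) = if l = l' then 1 else 0) ∧
        (∀ l c, w (Sum.inl l) (Additive.ofMul (t c)) = 0) ∧
        (∀ c c', w (Sum.inr c) (Additive.ofMul (t c')) = if c = c' then 1 else 0) := by
  obtain ⟨W, hW⟩ := exists_hom (MvPolynomial (Fin (r + 1)) ℂ) (phi r) (phi_mul r)
  have hW1 : ∀ (f : MvPolynomial (Fin (r + 1)) ℂ) (hf : f ≠ 0) (c : Fin r ⊕ ℂ),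
      W (Additive.ofMul (toUnit r f hf)) c = phi r f c := by
    intro f hf c
    rw [hW (toUnit r f hf) f 1 hf one_ne_zero (by rw [map_one, mul_one]; rfl), Pi.sub_apply,
      phi_one, sub_zero]
  refine ⟨fun c => (Pi.evalAddMonoidHom (fun _ => ℤ) c).comp W, ?_,
    fun l => toUnit r (X l.succ) (X_ne_zero _), fun c => toUnit r (X 0 - C c) (t_ne r c), ?_, ?_, ?_⟩
  · intro u v huv
    obtain ⟨⟨f1, g1⟩, h1⟩ := IsLocalization.surj (nonZeroDivisors (MvPolynomial (Fin (r + 1)) ℂ))
      (u : FractionRing (MvPolynomial (Fin (r + 1)) ℂ))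
    obtain ⟨⟨f2, g2⟩, h2⟩ := IsLocalization.surj (nonZeroDivisors (MvPolynomial (Fin (r + 1)) ℂ))
      (v : FractionRing (MvPolynomial (Fin (r + 1)) ℂ))
    have hg1 : (g1 : MvPolynomial (Fin (r + 1)) ℂ) ≠ 0 := nonZeroDivisors.ne_zero g1.2
    have hg2 : (g2 : MvPolynomial (Fin (r + 1)) ℂ) ≠ 0 := nonZeroDivisors.ne_zero g2.2
    simp only at h1 h2
    have hz : ∀ (z : (FractionRing (MvPolynomial (Fin (r + 1)) ℂ))ˣ)
        (f g : MvPolynomial (Fin (r + 1)) ℂ), g ≠ 0 →
        (z : FractionRing (MvPolynomial (Fin (r + 1)) ℂ)) * algebraMap _ _ g = algebraMap _ _ f →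
        f ≠ 0 := by
      rintro z f g hg h rfl
      simp only [map_zero, mul_eq_zero, Units.ne_zero, false_or] at h
      exact hg ((IsFractionRing.to_map_eq_zero_iff
        (K := FractionRing (MvPolynomial (Fin (r + 1)) ℂ))).mp h)
    have hf1 := hz u f1 g1 hg1 h1
    have hf2 := hz v f2 g2 hg2 h2
    have e : f1 * g2 + f2 * g1 = g1 * g2 := by
      apply IsFractionRing.injective (MvPolynomial (Fin (r + 1)) ℂ)
        (FractionRing (MvPolynomial (Fin (r + 1)) ℂ))
      rw [map_add, map_mul, map_mul, map_mul, ← h1, ← h2]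
      linear_combination (algebraMap _ (FractionRing (MvPolynomial (Fin (r + 1)) ℂ))
        (g1 : MvPolynomial (Fin (r + 1)) ℂ)) * (algebraMap _
        (FractionRing (MvPolynomial (Fin (r + 1)) ℂ)) (g2 : MvPolynomial (Fin (r + 1)) ℂ)) * huv
    have wu : W (Additive.ofMul u) = phi r (f1 * g2) - phi r (g1 * g2) :=
      hW u _ _ (mul_ne_zero hf1 hg2) (mul_ne_zero hg1 hg2) (by
        rw [map_mul, map_mul, ← h1]; ring)
    have wv : W (Additive.ofMul v) = phi r (f2 * g1) - phi r (g1 * g2) :=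
      hW v _ _ (mul_ne_zero hf2 hg1) (mul_ne_zero hg1 hg2) (by
        rw [map_mul, map_mul, ← h2]; ring)
    have h3 := phi_stein r _ _ _ (mul_ne_zero hf1 hg2) (mul_ne_zero hf2 hg1) e
    simp only [AddMonoidHom.comp_apply, Pi.evalAddMonoidHom_apply, wu, wv, Pi.sub_apply]
    rcases h3 with h3 | h3 | h3 | h3
    · exact Or.inl fun c => by rw [h3, sub_self]
    · exact Or.inr (Or.inl fun c => by rw [h3, sub_self])
    · exact Or.inr (Or.inr (Or.inl fun c => by rw [h3]))
    · exact Or.inr (Or.inr (Or.inr fun l => by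
        rw [(h3 l).1, (h3 l).2, sub_self]; exact ⟨rfl, rfl⟩))
  · intro l l'
    change W (Additive.ofMul (toUnit r (X l'.succ) (X_ne_zero _))) (Sum.inl l) = _
    rw [hW1, phi_X]
  · intro l c
    change W (Additive.ofMul (toUnit r (X 0 - C c) (t_ne r c))) (Sum.inl l) = _
    rw [hW1, phi_t_inl]
  · intro c c'
    change W (Additive.ofMul (toUnit r (X 0 - C c') (t_ne r c'))) (Sum.inr c) = _
    rw [hW1, phi_t_inr]

end Pool.Agent.Helper57.SymVal
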